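import Mathlib
import Pool.Agent.X332.GT.Towers

set_option autoImplicit false

/-!
# Rational points outside of the exceptional set, along orbits of rational maps in any dimension

Let `X` and `Z` be the closed subsets of the projective space given by the forms in the ideals `I`
and `I'` over a number field `K`, embedded in `ℂ` by `σ`. We suppose that all subvarieties of `X_σ` of
positive dimension which are not contained in `Z_σ` are of general type (`SubvarietiesGeneralType`;
for instance, `Z` contains the subvarieties of `X` which are not of general type). Lang's conjecture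
predicts that `X` has only finitely many points outside of `Z` over each number field.

We consider sequences of complex numbers. A *field of coefficients* (`CoefField`) is an algebra `B` of
sequences, closed under the shift and under inversion, whose elements vanish from some index on or do
not vanish from some index on. It is *finitely generated* (`FinGen`) if all its elements are rational
functions of finitely many of them; there is no condition on the transcendence degree. An example is
the field of the rational functions along an orbit `t 0, t 1, …` of a rational self-map of an affine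
variety `T` of arbitrary dimension such that every proper closed subset of `T` contains only finitely
many of the points `t m` (`Orbit`). The *towers* (`TowF`) start with a finitely generated field of
coefficients; in each step one goes to a field of coefficients which is generated by finitely many
sequences satisfying linear recurrences over the previous field.

We prove: every sequence of points of `X(ℂ)` outside of `Z(ℂ)` with homogeneous coordinates which
satisfy linear recurrences with coefficients in the last field of a tower is eventually periodic. So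
among the points of `X` outside of `Z` over the finite extensions `L` of `K` only finitely many lie on
any given sequence of this kind. For the sequences with coordinates in the finitely generated fields
the statement is equivalent to the statement for towers, and it implies that all nonconstant maps
from curves of genus at most one to `X_σ` have image in `Z_σ`.
-/

namespace Pool.Agent.Results.MP_7ede32_ag.GeneralTypeOrbits

open MvPolynomial Filter
open Pool.Agent.TH143.DE Pool.Agent.TH143.HE Pool.Agent.TH143.TW Pool.Agent.TH143.GE
open Pool.Agent.X332.OR Pool.Agent.X332.TO Pool.Agent.X332.GT Pool.Agent.Y719.LC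
open Pool.Agent.W602.GT (coords GeneralType)
open scoped LinearAlgebra.Projectivization

variable {K : Type} [Field K] [NumberField K] {N : ℕ}

/-- Let `F` be the function field and let `y` be the generic point, in homogeneous coordinates, of a
closed subvariety of `X_σ` of dimension `w > 0` which is not contained in `Z_σ`. Then the subvariety
is of general type: for some `n > 0` there are `w + 1` pluricanonical forms of weight `n` on `F`,
regular at all prime divisors of `F`, with `w` algebraically independent ratios. -/
def SubvarietiesGeneralType (σ : K →+* ℂ) (I I' : Ideal (MvPolynomial (Fin (N + 1)) K)) : Prop :=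
  ∀ (F : Type) [Field F] [Algebra ℂ F] (w : ℕ) (y : Fin (N + 1) → F), 1 ≤ w →
    Algebra.trdeg ℂ F = w → y ≠ 0 → coords ℂ y = ⊤ →
    IsPtP ((algebraMap ℂ F).comp σ) I y → ¬ IsPtP ((algebraMap ℂ F).comp σ) I' y →
    GeneralType ℂ F w

/-- Every nonconstant map from the projective line to `X_σ`, and every nonconstant map from a curve
of genus one to `X_σ`, has its image in `Z_σ`. -/
def GenusLeOneIn (σ : K →+* ℂ) (I I' : Ideal (MvPolynomial (Fin (N + 1)) K)) : Prop :=
  RatCurvesIn σ I I' ∧ GenusOneIn σ I I'

/-- Let `B` be the last field of a tower. Every sequence of points of `X(ℂ)` outside of `Z(ℂ)` with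
homogeneous coordinates satisfying linear recurrences over `B` is eventually periodic. -/
def TowersPeriodic (σ : K →+* ℂ) (I I' : Ideal (MvPolynomial (Fin (N + 1)) K)) : Prop :=
  ∀ B : Subalgebra ℂ (ℕ → ℂ), TowF B → ∀ x : ℕ → Fin (N + 1) → ℂ, (∀ᶠ m in atTop, x m ≠ 0) →
    (∀ j, LinRec B fun m => x m j) → (∀ᶠ m in atTop, IsPtP σ I (x m)) →
    (∀ᶠ m in atTop, ¬ IsPtP σ I' (x m)) → Per x

/-- Let `B` be a finitely generated field of coefficients. Every sequence of points of `X(ℂ)` outside
of `Z(ℂ)` with homogeneous coordinates in `B` is eventually periodic. -/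
def FieldsPeriodic (σ : K →+* ℂ) (I I' : Ideal (MvPolynomial (Fin (N + 1)) K)) : Prop :=
  ∀ B : Subalgebra ℂ (ℕ → ℂ), CoefField B → FinGen B →
    ∀ x : ℕ → Fin (N + 1) → ℂ, (∀ᶠ m in atTop, x m ≠ 0) → (∀ j, (fun m => x m j) ∈ B) →
    (∀ᶠ m in atTop, IsPtP σ I (x m)) → (∀ᶠ m in atTop, ¬ IsPtP σ I' (x m)) → Per x

/-- Let `t 0, t 1, …` be an orbit of a rational self-map of an affine variety. Every sequence of
points of `X(ℂ)` outside of `Z(ℂ)` with homogeneous coordinates satisfying linear recurrences whose
coefficients are polynomials in the coordinates of `t m` is eventually periodic. -/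
def OrbitsPeriodic (σ : K →+* ℂ) (I I' : Ideal (MvPolynomial (Fin (N + 1)) K)) : Prop :=
  ∀ (D : ℕ) (𝔱 : Ideal (MvPolynomial (Fin D) ℂ)) (t : ℕ → Fin D → ℂ), Orbit 𝔱 t →
    ∀ x : ℕ → Fin (N + 1) → ℂ, (∀ m, x m ≠ 0) → (∀ j, RecAlong 𝔱 t fun m => x m j) →
    (∀ m, IsPtP σ I (x m)) → (∀ m, ¬ IsPtP σ I' (x m)) → Per x

/-- Let `L` be a finite extension of `K`, with an embedding `τ` which extends `σ`, and let `B` be the
last field of a tower. Every sequence of points of `X(L)` outside of `Z(L)` with homogeneous
coordinates satisfying linear recurrences over `B` has only finitely many different terms. -/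
def RationalFinite (σ : K →+* ℂ) (I I' : Ideal (MvPolynomial (Fin (N + 1)) K)) : Prop :=
  ∀ (L : Type) [Field L] [NumberField L] [Algebra K L] (τ : L →+* ℂ),
    τ.comp (algebraMap K L) = σ → ∀ B : Subalgebra ℂ (ℕ → ℂ), TowF B →
    ∀ (x : ℕ → Fin (N + 1) → L) (hx : ∀ m, x m ≠ 0), (∀ j, LinRec B fun m => τ (x m j)) →
    (∀ m, IsPtP (algebraMap K L) I (x m)) → (∀ m, ¬ IsPtP (algebraMap K L) I' (x m)) →
    (Set.range fun m => Projectivization.mk L (x m) (hx m)).Finite

omit [NumberField K] in
theorem isPtP_emb {L : Type} [Field L] [Algebra K L] {σ : K →+* ℂ} {τ : L →+* ℂ}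
    (hτ : τ.comp (algebraMap K L) = σ) (J : Ideal (MvPolynomial (Fin (N + 1)) K))
    (y : Fin (N + 1) → L) : IsPtP σ J (fun j => τ (y j)) ↔ IsPtP (algebraMap K L) J y := by
  have h1 : ∀ G : MvPolynomial (Fin (N + 1)) K,
      eval₂ σ (fun j => τ (y j)) G = τ (eval₂ (algebraMap K L) y G) := by
    intro G
    rw [← hτ]
    exact (MvPolynomial.eval₂_comp_left τ (algebraMap K L) y G).symm
  constructor
  · intro h G hG hd
    have h2 := h G hG hd
    rw [h1, map_eq_zero_iff τ τ.injective] at h2
    exact h2
  · intro h G hG hd
    rw [h1, h G hG hd, map_zero]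

/-- eventually periodic sequences of points have finitely many terms -/
theorem finite_of_per {L : Type} [Field L] {τ : L →+* ℂ} {x : ℕ → Fin (N + 1) → L}
    (hx : ∀ m, x m ≠ 0) (h : Per fun m j => τ (x m j)) :
    (Set.range fun m => Projectivization.mk L (x m) (hx m)).Finite := by
  obtain ⟨k, m0, hk, hper⟩ := h
  have hstep : ∀ m, m0 ≤ m → Projectivization.mk L (x (m + k)) (hx (m + k)) =
      Projectivization.mk L (x m) (hx m) := by
    intro m hm
    rw [Projectivization.mk_eq_mk_iff']
    obtain ⟨i0, hi0⟩ := Function.ne_iff.1 (hx m)
    have hi0' : x m i0 ≠ 0 := hi0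
    refine ⟨x (m + k) i0 / x m i0, ?_⟩
    funext j
    have h1 : x (m + k) i0 * x m j = x (m + k) j * x m i0 := by
      apply τ.injective
      rw [map_mul, map_mul]
      exact hper m hm i0 j
    rw [Pi.smul_apply, smul_eq_mul, div_mul_eq_mul_div, h1, mul_div_assoc, div_self hi0', mul_one]
  refine ((Set.finite_lt_nat (m0 + k)).image fun m => Projectivization.mk L (x m) (hx m)).subset ?_
  rintro _ ⟨m, rfl⟩
  induction m using Nat.strong_induction_on with
  | _ m ih =>
    rcases Nat.lt_or_ge m (m0 + k) with h1 | h1
    · exact ⟨m, h1, rfl⟩
    · have h2 := hstep (m - k) (by omega)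
      have h3 : m - k + k = m := Nat.sub_add_cancel (by omega)
      simp only [h3] at h2
      have h4 : Projectivization.mk L (x m) (hx m) ∈
          (fun m => Projectivization.mk L (x m) (hx m)) '' {i | i < m0 + k} := by
        rw [h2]
        exact ih (m - k) (by omega)
      exact h4

omit [NumberField K] in
theorem result (σ : K →+* ℂ) (I I' : Ideal (MvPolynomial (Fin (N + 1)) K)) :
    (SubvarietiesGeneralType σ I I' → TowersPeriodic σ I I') ∧
    (TowersPeriodic σ I I' ↔ FieldsPeriodic σ I I') ∧
    (TowersPeriodic σ I I' →
      OrbitsPeriodic σ I I' ∧ RationalFinite σ I I' ∧ GenusLeOneIn σ I I') := by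
  have h21 : FieldsPeriodic σ I I' → TowersPeriodic σ I I' := fun h B hB =>
    towF_good (φ := σ) (I := I) (I' := I') h hB
  have h12 : TowersPeriodic σ I I' → FieldsPeriodic σ I I' := fun h B hB hF x h1 h2 h3 h4 =>
    h B (TowF.base hB hF) x h1 (fun j => linRec_of_mem hB (h2 j)) h3 h4
  refine ⟨fun h => h21 ?_, ⟨h12, h21⟩, fun h => ⟨?_, ?_, ?_⟩⟩
  · exact fldPer_of_allGT (φ := σ) (I := I) (I' := I') h
  · intro D 𝔱 t ho x h1 h2 h3 h4
    exact h (coef ho) (TowF.base (coef_field ho) (finGen_coef ho)) x
      (Eventually.of_forall h1) (fun j => (h2 j).linRec ho) (Eventually.of_forall h3)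
      (Eventually.of_forall h4)
  · intro L _ _ _ τ hτ B hB x hx hrec hX hZ
    refine finite_of_per hx (h B hB (fun m j => τ (x m j)) ?_ hrec ?_ ?_)
    · refine Eventually.of_forall fun m h0 => hx m ?_
      funext j
      exact (map_eq_zero_iff τ τ.injective).1 (congrFun h0 j)
    · exact Eventually.of_forall fun m => (isPtP_emb hτ I (x m)).2 (hX m)
    · exact Eventually.of_forall fun m h0 => hZ m ((isPtP_emb hτ I' (x m)).1 h0)
  · by_contra hcon
    obtain ⟨B, hB, hF, -, x, h1, h2, h3, h4, h5⟩ := exists_bad hcon
    exact h5 (h12 h B hB hF x h2 h1 h3 h4)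

end Pool.Agent.Results.MP_7ede32_ag.GeneralTypeOrbits
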