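import Mathlib
import Pool.Agent.X332.SM.Mix

set_option autoImplicit false

/-!
# The strong Lang conjecture near groups of finite rank, over the field of all algebraic numbers

Let `d ≥ 1` and `r` be natural numbers.

(1) There is `ε > 0`, depending only on `d` and `r`, with the following property. Let `X` be an
integral closed subvariety of projective `n`-space over a number field `k`, given by forms of degree
at most `d`, which is not uniruled, for instance of general type and positive dimension. There is a
proper closed subset `Z = X ∩ {G = 0}` of `X`, defined over `k`, such that for every embedding of `k`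
in the field `ℚ̄` of all algebraic numbers and every finitely generated group `Γ` of nonzero algebraic
numbers there are `A` and `e` such that for all vectors `V_1, …, V_r` of algebraic numbers the set of
the points of `(X ∖ Z)(ℚ̄)` which have homogeneous coordinates

  `s_1 u_1 V_1 + … + s_r u_r V_r`

with `u_j` in the division group of `Γ` (some power of `u_j` is in `Γ`) and algebraic numbers `s_j`
with `h(s_1 : … : s_r) < ε` is FINITE, with at most `A (1 + h(V)) ^ e` elements.

So for one `Z`, all groups `Γ` of finite rank, and all `V` the finiteness holds for the algebraic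
points, not only for the points over each number field `K`, and in a neighbourhood of the group with
respect to the height, whose radius depends only on `d` and `r`. The roots of unity are in all the
division groups, and roots of all orders of the elements of `Γ` are admitted.

(2) If `X` is uniruled, this fails for all `Γ` and all `ε`, even without the group and the
neighbourhood: for some `r` and every proper closed subset `G = 0` there are vectors `V_1, …, V_r`
of algebraic numbers such that for all `Γ` and all `ε > 0` the set above is infinite; it contains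
infinitely many points `ζ_1 V_1 + … + ζ_r V_r` with roots of unity `ζ_j`.

Method: the subspace theorem with moving coefficients bounds the height of `(u_j)_{j ∈ J}` for some
partial sum which gives the same point; the elements of bounded height in the division group lie in a
finite number of small neighbourhoods of representatives, whose number is polynomial in the height;
and for each choice of the representatives the number of the points with multipliers of small height
is bounded by the degrees.
-/

namespace Pool.Agent.Results.MP_7ede32_ag.NearFiniteRank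

open NumberField MvPolynomial Pool.Agent.Helper259.AbsHt Pool.Agent.H533R3.SL Pool.Agent.Y215.SP
  Pool.Agent.Y215.SK Pool.Agent.X332.SM

theorem result :
    (∀ (d r : ℕ), 1 ≤ d → ∃ ε : ℝ, 0 < ε ∧
      ∀ (k : Type) [Field k] [NumberField k] (n N : ℕ) (P : Fin N → MvPolynomial (Fin (n + 1)) k),
        (∀ i, ∃ e, e ≤ d ∧ (P i).IsHomogeneous e) → (Ideal.span (Set.range P)).IsPrime →
        ¬ Uniruled (Ideal.span (Set.range P)) →
        ∃ G : MvPolynomial (Fin (n + 1)) k, (∃ e, G.IsHomogeneous e) ∧
          G ∉ Ideal.span (Set.range P) ∧
          ∀ [Algebra k Qbar] (Γ : Subgroup Qbarˣ), Γ.FG → ∃ (A : ℝ) (e : ℕ),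
            ∀ V : Fin r → Fin (n + 1) → Qbar, (mixPts P G Γ ε V).Finite ∧
              ((mixPts P G Γ ε V).ncard : ℝ) ≤ A * (1 + hV V) ^ e) ∧
    (∀ (k : Type) [Field k] [NumberField k] (n N : ℕ) (P : Fin N → MvPolynomial (Fin (n + 1)) k),
      Uniruled (Ideal.span (Set.range P)) →
      ∃ r : ℕ, ∀ G : MvPolynomial (Fin (n + 1)) k, (∃ e, G.IsHomogeneous e) →
        G ∉ Ideal.span (Set.range P) →
        ∃ (_ : Algebra k Qbar) (V : Fin r → Fin (n + 1) → Qbar), (torsOff P G V).Infinite ∧
          ∀ (Γ : Subgroup Qbarˣ) (ε : ℝ), 0 < ε →
            torsOff P G V ⊆ mixPts P G Γ ε V ∧ (mixPts P G Γ ε V).Infinite) := by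
  refine ⟨fun d r hd => ?_, fun k _ _ n N P hu => ?_⟩
  · have hm : 1 ≤ (d + 1) ^ r := Nat.one_le_pow _ _ (Nat.succ_pos d)
    have hd' : (0 : ℝ) < d := by exact_mod_cast hd
    have hε : 0 < epsn ((d + 1) ^ r) / (d : ℝ) / 2 := half_pos (div_pos (epsn_pos _ hm) hd')
    refine ⟨epsn ((d + 1) ^ r) / d / 2, hε, fun k _ _ n N P hP hprime hnu => ?_⟩
    obtain ⟨G, h1, h2, h3⟩ := exists_hyper (Set.range P) hprime hnu d hd (by
      rintro _ ⟨i, rfl⟩
      exact hP i) r
    refine ⟨G, h1, h2, fun {_} Γ hΓ => ?_⟩
    refine mix_finite P d hd hP G h1 (fun L _ _ c l hz hc => h3 L c l ?_ hc) Γ hΓ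
    rintro _ ⟨i, rfl⟩
    exact hz i
  · obtain ⟨r, h⟩ := converse_tors k P hu
    refine ⟨r, fun G hG hGI => ?_⟩
    obtain ⟨_, V, hV⟩ := h G hG hGI
    exact ⟨inferInstance, V, hV, fun Γ ε hε => ⟨torsOff_subset_mix P G Γ ε hε V,
      hV.mono (torsOff_subset_mix P G Γ ε hε V)⟩⟩

end Pool.Agent.Results.MP_7ede32_ag.NearFiniteRank
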