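import Mathlib
import Pool.Agent.X332.SM.Bnd
import Pool.Agent.X332.SM.Conv

set_option autoImplicit false

/-!
# The strong Lang conjecture for sums with multipliers of small height: uniform bounds

Let `d ≥ 1` and `r` be natural numbers.

(1) There are `ε > 0` and `M`, depending only on `d` and `r`, with the following property. Let `X` be
an integral closed subvariety of projective `n`-space over a number field `k`, given by forms of
degree at most `d` (any number of forms, any `n`), which is not uniruled, for instance of general
type and positive dimension. There is a proper closed subset `Z = X ∩ {G = 0}` of `X`, defined over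
`k`, such that

(a) for ALL fields `L ⊇ k` with an embedding of the field of algebraic numbers in `L`, and ALL
vectors `v_1, …, v_r` with coordinates in `L`, at most `M` points of `(X ∖ Z)(L)` have homogeneous
coordinates `t_1 v_1 + … + t_r v_r` with algebraic numbers `t_j` such that the absolute logarithmic
Weil height of `(t_1 : … : t_r)` is less than `ε`;

(b) for ALL fields `L ⊇ k` and all `v_j` over `L`, at most `M` points of `(X ∖ Z)(L)` have homogeneous
coordinates `ζ_1 v_1 + … + ζ_r v_r` with roots of unity `ζ_j` of `L` of any orders;

(c) for ALL number fields `K ⊇ k`, embeddings of `K` in the algebraic numbers and vectors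
`v_1, …, v_r` of algebraic numbers, at most `M` points of `(X ∖ Z)(K)` are of the form
`t_1 v_1 + … + t_r v_r` with algebraic numbers `t_j`, `h(t_1 : … : t_r) < ε`.

The constants `ε` and `M` depend neither on `n`, the number or the coefficients of the equations nor
on `k`, `K`, `L`, the vectors `v_j` or the orders of the roots of unity.

(2) If `X` is uniruled, this fails already for roots of unity: for some `r` and for every proper
closed subset `G = 0` of `X` there are an embedding of `k` in the field of algebraic numbers and fixed
vectors `v_1, …, v_r` of algebraic numbers such that infinitely many points of `X` off `G = 0` have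
homogeneous coordinates `ζ_1 v_1 + … + ζ_r v_r` with roots of unity `ζ_j`.

Method: the equation `F (∑ t_j v_j) = 0` is split into nondegenerate vanishing sums of monomials of
`t`. Determinants of conjugates and the fact that an algebraic number congruent to its Frobenius
conjugates has height bounded below show that the ratios of the terms of a nondegenerate sum take
only a bounded number of values if the height is small; so the multipliers lie in a bounded number of
cosets of subtori of bounded degree. A coset of positive dimension gives a nonconstant rational curve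
with `r` terms on `X`, and these curves lie in a fixed hypersurface since `X` is not uniruled.
-/

namespace Pool.Agent.Results.MP_7ede32_ag.SmallMultipliers

open NumberField MvPolynomial Pool.Agent.Helper259.AbsHt Pool.Agent.H533R3.SL Pool.Agent.Y215.SP
  Pool.Agent.X332.SM

theorem result :
    (∀ (d r : ℕ), 1 ≤ d → ∃ (ε : ℝ) (M : ℕ), 0 < ε ∧
      ∀ (k : Type) [Field k] [NumberField k] (n N : ℕ) (P : Fin N → MvPolynomial (Fin (n + 1)) k),
        (∀ i, ∃ e, e ≤ d ∧ (P i).IsHomogeneous e) → (Ideal.span (Set.range P)).IsPrime →
        ¬ Uniruled (Ideal.span (Set.range P)) →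
        ∃ G : MvPolynomial (Fin (n + 1)) k, (∃ e, G.IsHomogeneous e) ∧
          G ∉ Ideal.span (Set.range P) ∧
          (∀ (L : Type) [Field L] [Algebra k L] (ι : Qbar →+* L) (v : Fin r → Fin (n + 1) → L),
            (smallOff ι P G ε v).encard ≤ M) ∧
          (∀ (L : Type) [Field L] [Algebra k L] (v : Fin r → Fin (n + 1) → L),
            (torsOff P G v).encard ≤ M) ∧
          (∀ (K : Type) [Field K] [NumberField K] [Algebra k K] (φ : K →+* Qbar)
            (v : Fin r → Fin (n + 1) → Qbar), (ratSmall φ P G ε v).encard ≤ M)) ∧
    (∀ (k : Type) [Field k] [NumberField k] (n N : ℕ) (P : Fin N → MvPolynomial (Fin (n + 1)) k),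
      Uniruled (Ideal.span (Set.range P)) →
      ∃ r : ℕ, ∀ G : MvPolynomial (Fin (n + 1)) k, (∃ e, G.IsHomogeneous e) →
        G ∉ Ideal.span (Set.range P) →
        ∃ (_ : Algebra k Qbar) (v : Fin r → Fin (n + 1) → Qbar), (torsOff P G v).Infinite) := by
  refine ⟨fun d r hd => ?_, fun k _ _ n N P hu => converse_tors k P hu⟩
  have hm : 1 ≤ (d + 1) ^ r := Nat.one_le_pow _ _ (Nat.succ_pos d)
  have hd' : (0 : ℝ) < d := by exact_mod_cast hd
  have hε : 0 < epsn ((d + 1) ^ r) / (d : ℝ) := div_pos (epsn_pos _ hm) hd'
  refine ⟨epsn ((d + 1) ^ r) / d, 2 ^ r * M0 ((d + 1) ^ r) d r, hε,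
    fun k _ _ n N P hP hprime hnu => ?_⟩
  obtain ⟨G, h1, h2, h3⟩ := small_multipliers P d hd hP hprime hnu r
  exact ⟨G, h1, h2, h3, fun L _ _ v => tors_le P G _ hε _ h3 v,
    fun K _ _ _ φ v => ratSmall_le φ P G _ _ h3 v⟩

end Pool.Agent.Results.MP_7ede32_ag.SmallMultipliers
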