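import Mathlib
import Pool.Agent.X251.UI

set_option autoImplicit false

/-!
# The strong Lang conjecture for points given by iterated recurrences: one subset and one bound

Let `X` be an integral closed subvariety of projective `n`-space over a number field `k`, given by
the forms in `FF`.  For natural numbers `s, r, e` we consider all families `x(h)` of points of
`X(L)`, where `L ⊇ k` is a field which can be embedded in `ℂ` and `h` runs over an arbitrary group
`H`, whose homogeneous coordinates are given by iterated recurrences (`IterVec s r e`): there are
invertible matrices `X_1(h), …, X_s(h)` of size `r` such that for every `g` in `H` the entries of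
`X_l(g h) X_l(h)⁻¹` are, for all `h`, values of polynomials of degree at most `e` in each variable at
the entries of `X_i(h)`, `X_i(h)⁻¹`, `i < l`, and the coordinates of `x(h)` are such polynomials in
the entries of all these matrices.  Examples are the vectors of linear recurrence sequences, orbits
of representations `M ρ(h) v`, and terms like `2 ^ (a_m)`, `a_m` an integral linear recurrence
sequence.

(1) If `X` is not uniruled, for instance of general type and positive dimension, then for all
`s, r, e` there are a proper closed subset `Z = X ∩ {G = 0}` of `X`, defined over `k`, and a number
`B`, depending only on `X` and on `s, r, e`, such that each of these families, for all groups `H` and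
all fields `L`, contains at most `B` different points of `X ∖ Z`.

(2) If `X` is uniruled, then there is `r` such that for every proper closed subset `G = 0` of `X`
there are a number field `L ⊇ k` and a sequence `x(m)`, `m ∈ ℤ`, of points of `X(L)` given by a
recurrence with one step (`s = e = 1`) with infinitely many different points off `G = 0`.

Method: if for some `s, r, e` there were no such `Z` and `B`, then families with more and more points
off larger and larger closed subsets have a product, with values in a product of fields, which a
suitable homomorphism to `ℂ` (an ultraproduct) turns into a family of points of `X(ℂ)` given by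
iterated recurrences all of whose points are generic and which contains infinitely many different
points.  By the theory of such families (project IR of helper377 and others, `exists_res`,
`rat_point`) there is a rational curve through a generic point, so that `X` is uniruled.
-/

namespace Pool.Agent.Results.MP_7ede32_ag.UniformIterated

open MvPolynomial Pool.Agent.H533R3.SL Pool.Agent.Y377.ST

theorem result (k : Type) [Field k] [NumberField k] (n : ℕ)
    (FF : Finset (MvPolynomial (Fin (n + 1)) k)) (hhom : ∀ F ∈ FF, ∃ e, F.IsHomogeneous e)
    (hprime : (Ideal.span (FF : Set (MvPolynomial (Fin (n + 1)) k))).IsPrime) :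
    (¬ Uniruled (Ideal.span (FF : Set (MvPolynomial (Fin (n + 1)) k))) → ∀ s r e : ℕ,
      ∃ (G : MvPolynomial (Fin (n + 1)) k) (B : ℕ), (∃ d, G.IsHomogeneous d) ∧
        G ∉ Ideal.span (FF : Set (MvPolynomial (Fin (n + 1)) k)) ∧
        ∀ (L : Type) [Field L] [Algebra k L] (_ : L →+* ℂ) (H : Type) [Group H]
          (x : H → Fin (n + 1) → L), IterVec s r e x →
          (∀ h, ∀ F ∈ FF, aeval (x h) F = 0) → (ptsOff G x).encard ≤ (B : ℕ∞)) ∧
    (Uniruled (Ideal.span (FF : Set (MvPolynomial (Fin (n + 1)) k))) → ∃ r : ℕ,
      ∀ G : MvPolynomial (Fin (n + 1)) k, (∃ d, G.IsHomogeneous d) →
        G ∉ Ideal.span (FF : Set (MvPolynomial (Fin (n + 1)) k)) →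
        ∃ (L : Type) (_ : Field L) (_ : NumberField L) (_ : Algebra k L)
          (x : Multiplicative ℤ → Fin (n + 1) → L), IterVec 1 r 1 x ∧
          (∀ h, ∀ F ∈ FF, aeval (x h) F = 0) ∧ (ptsOff G x).Infinite) := by
  refine ⟨fun hnu s r e => ?_, (strong_iff FF hhom hprime).2⟩
  have : Countable k := (Module.finBasis ℚ k).equivFun.injective.countable
  exact Pool.Agent.X251.strong_uniform _ hhom hprime hnu s r e

end Pool.Agent.Results.MP_7ede32_ag.UniformIterated
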